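import Pool.Agent.N223.Cat.Dfb

/-!
# Analytical sets of numbers are definable over the hereditarily small sets

A set of natural numbers is analytical if it is defined by a second-order formula in the structure
of arithmetic.
-/

set_option autoImplicit false

namespace Pool.Agent.N223.Cat

open Pool.Agent.R587
open Pool.Agent.W868 hiding Models
open ZFSet (pair)
open Cardinal

/-- The vocabulary of arithmetic: two relation symbols with three arguments. -/
def arN : Fin 2 → ℕ := fun _ => 3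

/-- The structure of arithmetic: the natural numbers with the graph of the addition (symbol `0`)
and the graph of the multiplication (symbol `1`). -/
def NN : Struc arN where
  Dom := ℕ
  ne := ⟨0⟩
  R r := fun x : Fin 3 → ℕ => if r = 0 then x 0 + x 1 = x 2 else x 0 * x 1 = x 2

/-- The set `C` of natural numbers is analytical: there is a second-order formula in the vocabulary
of arithmetic, with the only free variable `0`, that holds in the structure of arithmetic for the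
value `n` if and only if `n` belongs to `C`. -/
def Analytical (C : ℕ → Prop) : Prop :=
  ∃ δ : SOF arN, (∀ z, δ.FreeI z → z = 0) ∧ (∀ j l, ¬ δ.FreeR j l) ∧
    ∀ n v w, v 0 = n → (δ.Sat NN v w ↔ C n)

/-- The relations of the structure of arithmetic, as a set. -/
noncomputable def EN : ZFSet.{0} :=
  ZFSet.range (fun q : ℕ × ℕ => pair (nat 0) (tp ![nat q.1, nat q.2, nat (q.1 + q.2)])) ∪
    ZFSet.range (fun q : ℕ × ℕ => pair (nat 1) (tp ![nat q.1, nat q.2, nat (q.1 * q.2)]))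

theorem mem_EN {p : ZFSet.{0}} : p ∈ EN ↔
    (∃ a b : ℕ, p = pair (nat 0) (tp ![nat a, nat b, nat (a + b)])) ∨
      ∃ a b : ℕ, p = pair (nat 1) (tp ![nat a, nat b, nat (a * b)]) := by
  rw [EN, ZFSet.mem_union, ZFSet.mem_range, ZFSet.mem_range]
  constructor
  · rintro (⟨⟨a, b⟩, rfl⟩ | ⟨⟨a, b⟩, rfl⟩)
    · exact Or.inl ⟨a, b, rfl⟩
    · exact Or.inr ⟨a, b, rfl⟩
  · rintro (⟨a, b, rfl⟩ | ⟨a, b, rfl⟩)
    · exact Or.inl ⟨(a, b), rfl⟩
    · exact Or.inr ⟨(a, b), rfl⟩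

theorem vec3 (x : Fin 3 → ℕ) : (fun j => nat (x j)) = ![nat (x 0), nat (x 1), nat (x 2)] := by
  funext j
  fin_cases j <;> rfl

theorem NN_R (r : Fin 2) (x : Fin 3 → ℕ) :
    NN.R r x ↔ (if r = 0 then x 0 + x 1 = x 2 else x 0 * x 1 = x 2) := Iff.rfl

theorem EN_of (r : Fin 2) (x : Fin 3 → ℕ)
    (h : if r = 0 then x 0 + x 1 = x 2 else x 0 * x 1 = x 2) :
    (∃ a b : ℕ, pair (nat r) (tp fun j => nat (x j)) =
      pair (nat 0) (tp ![nat a, nat b, nat (a + b)])) ∨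
      ∃ a b : ℕ, pair (nat r) (tp fun j => nat (x j)) =
        pair (nat 1) (tp ![nat a, nat b, nat (a * b)]) := by
  rw [vec3 x]
  by_cases hr : r = 0
  · rw [if_pos hr] at h
    subst hr
    left
    refine ⟨x 0, x 1, ?_⟩
    rw [h]
    rfl
  · rw [if_neg hr] at h
    have hr' : r = 1 := by omega
    subst hr'
    right
    refine ⟨x 0, x 1, ?_⟩
    rw [h]
    rfl

theorem mem_EN' (p : ZFSet.{0}) : p ∈ EN ↔ ∃ (r : Fin 2) (x : Fin (arN r) → NN.Dom), NN.R r x ∧
    p = pair (nat r) (tp fun j => nat (x j)) := by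
  rw [mem_EN]
  constructor
  · rintro (⟨a, b, rfl⟩ | ⟨a, b, rfl⟩)
    · refine ⟨0, (![a, b, a + b] : Fin 3 → ℕ), ?_, ?_⟩
      · exact (NN_R 0 ![a, b, a + b]).2 (by simp)
      · exact congrArg (fun t => pair (nat 0) (tp t)) (vec3 ![a, b, a + b]).symm
    · refine ⟨1, (![a, b, a * b] : Fin 3 → ℕ), ?_, ?_⟩
      · exact (NN_R 1 ![a, b, a * b]).2 (by simp)
      · exact congrArg (fun t => pair (nat 1) (tp t)) (vec3 ![a, b, a * b]).symm
  · rintro ⟨r, x, h, rfl⟩
    exact EN_of r x ((NN_R r x).1 h)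

section

variable {c : Cardinal.{0}} {M : Set ZFSet.{0}}

theorem EN_mem (hM : Full c M) : EN ∈ M := by
  refine hM.of_countable (fun p hp => ?_) ?_
  · rcases mem_EN.1 hp with ⟨a, b, rfl⟩ | ⟨a, b, rfl⟩
    · refine hM.pair_mem (hM.nat_mem _) (tp_mem hM fun j => ?_)
      fin_cases j <;> exact hM.nat_mem _
    · refine hM.pair_mem (hM.nat_mem _) (tp_mem hM fun j => ?_)
      fin_cases j <;> exact hM.nat_mem _
  · have h : ∀ f : ℕ × ℕ → ZFSet.{0}, (ZFSet.range f).card ≤ ℵ₀ := fun f =>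
      card_range_le f |>.trans Cardinal.mk_le_aleph0
    rw [EN]
    refine (ZFSet.card_union_le).trans ?_
    exact Cardinal.add_le_of_le le_rfl (h _) (h _)

/-- The computable function `f`, as a partial function. -/
def pf (f : ℕ → ℕ) : ℕ →. ℕ := fun n => Part.some (f n)

theorem mem_gph_pf {f : ℕ → ℕ} {x y : ZFSet.{0}} :
    pair x y ∈ gph (pf f) ↔ ∃ a : ℕ, x = nat a ∧ y = nat (f a) := by
  rw [mem_gph]
  constructor
  · rintro ⟨a, b, h, rfl, rfl⟩
    rw [Part.mem_some_iff.1 h]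
    exact ⟨a, rfl, rfl⟩
  · rintro ⟨a, rfl, rfl⟩
    exact ⟨a, f a, Part.mem_some _, rfl, rfl⟩

theorem d0_pairtp (r : ℕ) {n : ℕ} {F : (Fin n → ZFSet.{0}) → ZFSet.{0}} (hF : D0v F)
    (i j k : Fin n) : D0 fun v => F v = pair (nat r) (tp ![v i, v j, v k]) := by
  have h : D0 fun v => ∃ x y, F v = pair x y ∧ (x = nat r ∧ y = tp fun l => v (![i, j, k] l)) := by
    apply D0.expair (Q := fun x y v => x = nat r ∧ y = tp fun l => v (![i, j, k] l)) hF
    apply D0.and
    · exact D0.isNat (D0v.proj 1) r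
    · exact d0_tp (D0v.proj 0) fun l => (![i, j, k] l).succ.succ
  refine h.congr fun v => ?_
  have e : (fun l => v (![i, j, k] l)) = ![v i, v j, v k] := by
    funext l
    fin_cases l <;> rfl
  rw [e]
  constructor
  · rintro ⟨x, y, h, rfl, rfl⟩
    exact h
  · intro h
    exact ⟨_, _, h, rfl, rfl⟩

theorem dfn_mem_EN (hM : Full c M) : Dfn ∅ M fun v : Fin 1 → ZFSet.{0} => v 0 ∈ EN := by
  have hcL : Computable fun n : ℕ => n.unpair.1 := Computable.fst.comp Computable.unpair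
  have hcR : Computable fun n : ℕ => n.unpair.2 := Computable.snd.comp Computable.unpair
  have hA : Computable fun n : ℕ => n.unpair.1 + n.unpair.2 :=
    Primrec.nat_add.to_comp.comp hcL hcR
  have hMu : Computable fun n : ℕ => n.unpair.1 * n.unpair.2 :=
    Primrec.nat_mul.to_comp.comp hcL hcR
  have hg : ∀ {k : ℕ} {f : ℕ → ℕ}, Computable f → DfnF ∅ M fun _ : Fin k → ZFSet.{0} =>
    gph (pf f) := fun hf => gph' hM hM.kd (partrec_of hf)
  have hB := hM.base
  have h1 : Dfn ∅ M fun v : Fin 1 → ZFSet.{0} => ∃ z ∈ (ZFSet.omega : ZFSet.{0}),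
      ∃ a ∈ (ZFSet.omega : ZFSet.{0}), ∃ b ∈ (ZFSet.omega : ZFSet.{0}),
      ∃ d ∈ (ZFSet.omega : ZFSet.{0}), (pair z a ∈ gph (pf fun n => n.unpair.1) ∧
        pair z b ∈ gph (pf fun n => n.unpair.2)) ∧
        ((pair z d ∈ gph (pf fun n => n.unpair.1 + n.unpair.2) ∧
          v 0 = pair (nat 0) (tp ![a, b, d])) ∨
        (pair z d ∈ gph (pf fun n => n.unpair.1 * n.unpair.2) ∧
          v 0 = pair (nat 1) (tp ![a, b, d]))) := by
    apply hB.bex (Q := fun z v => ∃ a ∈ (ZFSet.omega : ZFSet.{0}), ∃ b ∈ (ZFSet.omega : ZFSet.{0}),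
      ∃ d ∈ (ZFSet.omega : ZFSet.{0}), (pair z a ∈ gph (pf fun n => n.unpair.1) ∧
        pair z b ∈ gph (pf fun n => n.unpair.2)) ∧
        ((pair z d ∈ gph (pf fun n => n.unpair.1 + n.unpair.2) ∧
          v 0 = pair (nat 0) (tp ![a, b, d])) ∨
        (pair z d ∈ gph (pf fun n => n.unpair.1 * n.unpair.2) ∧
          v 0 = pair (nat 1) (tp ![a, b, d])))) hM.omega'
    apply hB.bex (Q := fun a (w : Fin 2 → ZFSet.{0}) => ∃ b ∈ (ZFSet.omega : ZFSet.{0}),
      ∃ d ∈ (ZFSet.omega : ZFSet.{0}), (pair (w 0) a ∈ gph (pf fun n => n.unpair.1) ∧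
        pair (w 0) b ∈ gph (pf fun n => n.unpair.2)) ∧
        ((pair (w 0) d ∈ gph (pf fun n => n.unpair.1 + n.unpair.2) ∧
          w 1 = pair (nat 0) (tp ![a, b, d])) ∨
        (pair (w 0) d ∈ gph (pf fun n => n.unpair.1 * n.unpair.2) ∧
          w 1 = pair (nat 1) (tp ![a, b, d])))) hM.omega'
    apply hB.bex (Q := fun b (w : Fin 3 → ZFSet.{0}) =>
      ∃ d ∈ (ZFSet.omega : ZFSet.{0}), (pair (w 1) (w 0) ∈ gph (pf fun n => n.unpair.1) ∧
        pair (w 1) b ∈ gph (pf fun n => n.unpair.2)) ∧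
        ((pair (w 1) d ∈ gph (pf fun n => n.unpair.1 + n.unpair.2) ∧
          w 2 = pair (nat 0) (tp ![w 0, b, d])) ∨
        (pair (w 1) d ∈ gph (pf fun n => n.unpair.1 * n.unpair.2) ∧
          w 2 = pair (nat 1) (tp ![w 0, b, d])))) hM.omega'
    apply hB.bex (Q := fun d (w : Fin 4 → ZFSet.{0}) =>
      (pair (w 2) (w 1) ∈ gph (pf fun n => n.unpair.1) ∧
        pair (w 2) (w 0) ∈ gph (pf fun n => n.unpair.2)) ∧
        ((pair (w 2) d ∈ gph (pf fun n => n.unpair.1 + n.unpair.2) ∧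
          w 3 = pair (nat 0) (tp ![w 1, w 0, d])) ∨
        (pair (w 2) d ∈ gph (pf fun n => n.unpair.1 * n.unpair.2) ∧
          w 3 = pair (nat 1) (tp ![w 1, w 0, d])))) hM.omega'
    -- the variables are d, b, a, z, p
    apply Dfn.and
    · apply Dfn.and
      · exact Dfn.mem (hB.pair' (DfnF.proj 3) (DfnF.proj 2)) (hg hcL)
      · exact Dfn.mem (hB.pair' (DfnF.proj 3) (DfnF.proj 1)) (hg hcR)
    · apply Dfn.or
      · apply Dfn.and
        · exact Dfn.mem (hB.pair' (DfnF.proj 3) (DfnF.proj 0)) (hg hA)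
        · exact (d0_pairtp 0 (D0v.proj 4) 2 1 0).dfn hB.trans
      · apply Dfn.and
        · exact Dfn.mem (hB.pair' (DfnF.proj 3) (DfnF.proj 0)) (hg hMu)
        · exact (d0_pairtp 1 (D0v.proj 4) 2 1 0).dfn hB.trans
  refine h1.congr fun v _ => ?_
  rw [mem_EN]
  constructor
  · rintro ⟨z, -, a, -, b, -, d, -, ⟨h2, h3⟩, h4⟩
    obtain ⟨n, rfl, rfl⟩ := mem_gph_pf.1 h2
    obtain ⟨n', h5, rfl⟩ := mem_gph_pf.1 h3
    have h6 := nat_injective h5
    subst h6
    rcases h4 with ⟨h4, h7⟩ | ⟨h4, h7⟩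
    · obtain ⟨n', h5, rfl⟩ := mem_gph_pf.1 h4
      have h6 := nat_injective h5
      subst h6
      exact Or.inl ⟨_, _, h7⟩
    · obtain ⟨n', h5, rfl⟩ := mem_gph_pf.1 h4
      have h6 := nat_injective h5
      subst h6
      exact Or.inr ⟨_, _, h7⟩
  · have hω : ∀ n : ℕ, nat n ∈ (ZFSet.omega : ZFSet.{0}) := fun n => mem_omega_iff.2 ⟨n, rfl⟩
    rintro (⟨a, b, h⟩ | ⟨a, b, h⟩)
    · refine ⟨nat (Nat.pair a b), hω _, nat a, hω _, nat b, hω _, nat (a + b), hω _,
        ⟨mem_gph_pf.2 ⟨_, rfl, by rw [Nat.unpair_pair]⟩,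
          mem_gph_pf.2 ⟨_, rfl, by rw [Nat.unpair_pair]⟩⟩,
        Or.inl ⟨mem_gph_pf.2 ⟨_, rfl, by rw [Nat.unpair_pair]⟩, h⟩⟩
    · refine ⟨nat (Nat.pair a b), hω _, nat a, hω _, nat b, hω _, nat (a * b), hω _,
        ⟨mem_gph_pf.2 ⟨_, rfl, by rw [Nat.unpair_pair]⟩,
          mem_gph_pf.2 ⟨_, rfl, by rw [Nat.unpair_pair]⟩⟩,
        Or.inr ⟨mem_gph_pf.2 ⟨_, rfl, by rw [Nat.unpair_pair]⟩, h⟩⟩

theorem EN' (hM : Full c M) {k : ℕ} : DfnF ∅ M fun _ : Fin k → ZFSet.{0} => EN := by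
  refine dfnF_of_const (EN_mem hM) ?_
  have h : Dfn ∅ M fun v : Fin 1 → ZFSet.{0} => ∀ p ∈ M, p ∈ v 0 ↔ p ∈ EN := by
    apply Dfn.all (Q := fun p v => p ∈ v 0 ↔ p ∈ EN)
    apply Dfn.iff
    · exact Dfn.mem (DfnF.proj 0) (DfnF.proj 1)
    · exact Dfn.comp1 (Q := fun p => p ∈ EN) (dfn_mem_EN hM) (DfnF.proj 0)
  refine h.congr fun v hv => ?_
  constructor
  · intro h
    ext p
    constructor
    · intro hp
      exact (h p (hM.trans (hv 0) hp)).1 hp
    · intro hp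
      exact (h p (hM.trans (EN_mem hM) hp)).2 hp
  · intro h p _
    rw [h]

/-- The assignment for formulas about the number `x`. -/
noncomputable def fN (x : ZFSet.{0}) : ℕ → ZFSet.{0} := fun i =>
  if i = 0 then ZFSet.omega else if i = 1 then EN else if i = 2 then x else ∅

theorem dfn_GS (hM : Full c M) (n : ℕ) :
    Dfn ∅ M fun v : Fin 1 → ZFSet.{0} => GS M n (fN (v 0)) := by
  obtain ⟨K₀, hK⟩ := gs_ud n
  have h1 := hK (K₀ + 3) (by omega)
  have h2 : UD fun N (v : Fin 4 → ZFSet.{0}) => GS N n (ext fun i : Fin (K₀ + 3) =>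
      v (if (i : ℕ) = 0 then 0 else if (i : ℕ) = 1 then 1 else if (i : ℕ) = 2 then 2 else 3)) :=
    h1.comp fun i : Fin (K₀ + 3) =>
      if (i : ℕ) = 0 then (0 : Fin 4) else if (i : ℕ) = 1 then 1 else if (i : ℕ) = 2 then 2 else 3
  obtain ⟨φ, hφ⟩ := h2
  have h3 : Dfn ∅ M fun v : Fin 4 → ZFSet.{0} => GS M n (ext fun i : Fin (K₀ + 3) =>
      (![v 0, v 1, v 2, v 3] : Fin 4 → ZFSet.{0}) (if (i : ℕ) = 0 then 0 else if (i : ℕ) = 1
        then 1 else if (i : ℕ) = 2 then 2 else 3)) := by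
    refine dfn_iff.2 ⟨φ, fun v hv => ?_⟩
    rw [hφ M hM.base.trans hM.empty_mem v hv]
    have e : (![v 0, v 1, v 2, v 3] : Fin 4 → ZFSet.{0}) = v := by
      funext i
      fin_cases i <;> rfl
    rw [e]
  have h4 := Dfn.comp4 (Q := fun a b d e => GS M n (ext fun i : Fin (K₀ + 3) =>
      (![a, b, d, e] : Fin 4 → ZFSet.{0}) (if (i : ℕ) = 0 then 0 else if (i : ℕ) = 1
        then 1 else if (i : ℕ) = 2 then 2 else 3))) h3
      (hM.omega' (n := 1)) (EN' hM) (DfnF.proj 0) hM.empty'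
  refine h4.congr fun v _ => ?_
  have h5 : (ext fun i : Fin (K₀ + 3) =>
      (![ZFSet.omega, EN, v 0, ∅] : Fin 4 → ZFSet.{0}) (if (i : ℕ) = 0 then 0 else if (i : ℕ) = 1
        then 1 else if (i : ℕ) = 2 then 2 else 3)) = fN (v 0) := by
    funext i
    by_cases h : i < K₀ + 3
    · rw [ext_lt _ h, fN]
      by_cases h0 : i = 0
      · simp [h0]
      · by_cases h1 : i = 1
        · simp [h1]
        · by_cases h2 : i = 2
          · simp [h2]
          · simp [h0, h1, h2]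
    · rw [Pool.Agent.R587.ext, dif_neg h, fN, if_neg (by omega), if_neg (by omega),
        if_neg (by omega)]
  rw [h5]

/-- **Analytical sets are definable.** -/
theorem DA.of_analytical (hM : Full c M) {C : ℕ → Prop} (h : Analytical C) : DA M C := by
  obtain ⟨δ, -, -, hδ⟩ := h
  have h1 : Dfn ∅ M fun v : Fin 1 → ZFSet.{0} => v 0 ∈ (ZFSet.omega : ZFSet.{0}) ∧
      GS M δ.code (fN (v 0)) :=
    (Dfn.mem (DfnF.proj 0) hM.omega').and (dfn_GS hM _)
  have key : ∀ n : ℕ, GS M δ.code (fN (nat n)) ↔ C n := by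
    intro n
    rw [← hδ n (fun i => if i = 0 then n else (0 : ℕ) : ℕ → ℕ) (fun _ _ _ => False) rfl]
    refine sat_code (A := NN) (D := ZFSet.omega) (c := EN) (g := nat) nat_injective
      (fun x => ?_) mem_EN' hM hM.omega_mem δ _ _ _ rfl rfl (fun i => ?_) (fun k i t => ?_)
    · rw [mem_omega_iff]
      rfl
    · by_cases h0 : i = 0
      · subst h0
        rfl
      · have h1 : 3 * i + 2 ≠ 0 := by omega
        have h2 : 3 * i + 2 ≠ 1 := by omega
        have h3 : 3 * i + 2 ≠ 2 := by omega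
        simp only [fN, h1, h2, h3, h0, if_false]
        rfl
    · have h1 : 3 * Nat.pair k i + 3 ≠ 0 := by omega
      have h2 : 3 * Nat.pair k i + 3 ≠ 1 := by omega
      have h3 : 3 * Nat.pair k i + 3 ≠ 2 := by omega
      simp only [fN, h1, h2, h3, if_false]
      constructor
      · intro h
        exact absurd h (ZFSet.notMem_empty _)
      · rintro ⟨x, hx, -⟩
        exact hx.elim
  refine Dfn.congr h1 fun v _ => ?_
  constructor
  · rintro ⟨h2, h3⟩
    obtain ⟨n, hn⟩ := mem_omega_iff.1 h2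
    rw [hn] at h3
    exact ⟨n, (key n).1 h3, hn⟩
  · rintro ⟨n, h2, h3⟩
    rw [h3]
    exact ⟨mem_omega_iff.2 ⟨n, rfl⟩, (key n).2 h2⟩

end

end Pool.Agent.N223.Cat
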