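import Pool.Agent.R587.Main
import Pool.Agent.R587.VL

/-!
# Complete second-order theories with definable axiom systems

The file extends `R587/Same.lean` and `R587/Crd.lean` from recursive sets of axioms to sets of axioms
that are definable without parameters over the hereditarily small sets.
-/

set_option autoImplicit false

namespace Pool.Agent.N223.Cat

open Pool.Agent.R587
open Pool.Agent.W868 hiding Models
open ZFSet (pair)
open Cardinal

variable {m : ℕ} {ar : Fin m → ℕ}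

/-- The set of numbers `C` is definable without parameters in `(M, ∈)`. -/
def DA (M : Set ZFSet.{0}) (C : ℕ → Prop) : Prop :=
  Dfn ∅ M fun v : Fin 1 → ZFSet.{0} => ∃ n, C n ∧ v 0 = nat n

section

variable {c : Cardinal.{0}} {M : Set ZFSet.{0}} {C : ℕ → Prop}

theorem partrec_of {f : ℕ → ℕ} (hf : Computable f) :
    Nat.Partrec (fun n : ℕ => Part.some (f n)) := Partrec.nat_iff.1 hf.partrec

/-- The image of a definable set under a computable function is definable. -/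
theorem DA.image (hM : Full c M) {f : ℕ → ℕ} (hf : Computable f) (h : DA M C) :
    DA M fun m => ∃ n, C n ∧ f n = m := by
  have h1 : Dfn ∅ M fun v : Fin 1 → ZFSet.{0} => ∃ n ∈ (ZFSet.omega : ZFSet.{0}),
      (∃ a, C a ∧ n = nat a) ∧ pair n (v 0) ∈ gph (fun n : ℕ => Part.some (f n)) := by
    apply hM.base.bex (Q := fun n v => (∃ a, C a ∧ n = nat a) ∧
      pair n (v 0) ∈ gph (fun n : ℕ => Part.some (f n))) hM.omega'
    apply Dfn.and
    · exact Dfn.comp1 (Q := fun n => ∃ a, C a ∧ n = nat a) h (DfnF.proj 0)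
    · exact Dfn.mem (hM.base.pair' (DfnF.proj 0) (DfnF.proj 1)) (gph' hM hM.kd (partrec_of hf))
  refine h1.congr fun v _ => ?_
  constructor
  · rintro ⟨n, -, ⟨a, ha, rfl⟩, h2⟩
    obtain ⟨a', b, h3, h4, h5⟩ := mem_gph.1 h2
    rw [← nat_injective h4] at h3
    exact ⟨b, ⟨a, ha, (Part.mem_some_iff.1 h3).symm⟩, h5⟩
  · rintro ⟨b, ⟨a, ha, rfl⟩, h2⟩
    refine ⟨nat a, mem_omega_iff.2 ⟨a, rfl⟩, ⟨a, ha, rfl⟩, ?_⟩
    rw [h2]
    exact nat_pair_mem_gph.2 (Part.mem_some _)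

theorem DA.or {C' : ℕ → Prop} (h : DA M C) (h' : DA M C') : DA M fun n => C n ∨ C' n :=
  (Dfn.or h h').congr fun _ _ => by
    constructor
    · rintro (⟨n, h1, h2⟩ | ⟨n, h1, h2⟩)
      · exact ⟨n, Or.inl h1, h2⟩
      · exact ⟨n, Or.inr h1, h2⟩
    · rintro ⟨n, h1 | h1, h2⟩
      · exact Or.inl ⟨n, h1, h2⟩
      · exact Or.inr ⟨n, h1, h2⟩

theorem DA.congr {C' : ℕ → Prop} (h : DA M C) (h' : ∀ n, C n ↔ C' n) : DA M C' :=
  Dfn.congr h fun v _ => exists_congr fun n => and_congr_left' (h' n)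

/-- Recursive sets are definable. -/
theorem DA.of_computable (hM : Full c M) (h : ComputablePred C) : DA M C := by
  obtain ⟨hd, hc⟩ := h
  have hf : Computable fun n : ℕ => cond (decide (C n)) 1 0 :=
    Computable.cond hc (Computable.const 1) (Computable.const 0)
  have h1 : Dfn ∅ M fun v : Fin 1 → ZFSet.{0} => ∃ n ∈ (ZFSet.omega : ZFSet.{0}),
      n = v 0 ∧ pair n (nat 1) ∈ gph (fun n : ℕ => Part.some (cond (decide (C n)) 1 0)) := by
    apply hM.base.bex (Q := fun n v => n = v 0 ∧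
      pair n (nat 1) ∈ gph (fun n : ℕ => Part.some (cond (decide (C n)) 1 0))) hM.omega'
    apply Dfn.and (Dfn.eq (DfnF.proj 0) (DfnF.proj 1))
    have hk : DfnF ∅ M fun _ : Fin 2 → ZFSet.{0} => nat 1 :=
      dfnF_of_const (hM.nat_mem 1) ((D0.isNat (D0v.proj 0) 1).dfn hM.base.trans)
    exact Dfn.mem (hM.base.pair' (DfnF.proj 0) hk) (gph' hM hM.kd (partrec_of hf))
  refine Dfn.congr h1 fun v _ => ?_
  constructor
  · rintro ⟨n, hn, h2, h3⟩
    obtain ⟨a, rfl⟩ := mem_omega_iff.1 hn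
    have h4 := nat_pair_mem_gph.1 h3
    refine ⟨a, ?_, h2.symm⟩
    by_contra hC
    simp [hC] at h4
  · rintro ⟨n, hn, h2⟩
    refine ⟨nat n, mem_omega_iff.2 ⟨n, rfl⟩, h2.symm, ?_⟩
    apply nat_pair_mem_gph.2
    simp [hn]

theorem computable_cmpn (k : ℕ) : Computable (cmpn k) := by
  have h1 : Primrec (cmpn k) := by
    unfold cmpn
    exact (Primrec₂.natPair.comp (Primrec.const 8) (Primrec₂.natPair.comp (Primrec.const 0)
      (Primrec₂.natPair.comp (Primrec.const 8) (Primrec₂.natPair.comp (Primrec.const 1)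
        (Primrec₂.natPair.comp (Primrec.const 4) (Primrec₂.natPair.comp (Primrec.const k)
          Primrec.id))))))
  exact h1.to_comp

/-- The set of the numbers `cmpn k n`, for a definable set of numbers `n`, is definable. -/
theorem dfn_CC' (hM : Full c M) (hC : DA M C) (k : ℕ) :
    Dfn ∅ M fun v : Fin 1 → ZFSet.{0} => v 0 = CC C k := by
  have h1 : CC C k = ZFSet.sep (fun x => ∃ m, (∃ n, C n ∧ cmpn k n = m) ∧ x = nat m)
      ZFSet.omega := by
    ext x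
    rw [mem_CC, ZFSet.mem_sep]
    constructor
    · rintro ⟨n, hn, rfl⟩
      exact ⟨mem_omega_iff.2 ⟨_, rfl⟩, _, ⟨n, hn, rfl⟩, rfl⟩
    · rintro ⟨-, _, ⟨n, hn, rfl⟩, rfl⟩
      exact ⟨n, hn, rfl⟩
  rw [h1]
  apply Dfn.eq (DfnF.proj 0)
  refine hM.sep' (Q := fun x _ => ∃ m, (∃ n, C n ∧ cmpn k n = m) ∧ x = nat m) hM.omega' ?_
  exact Dfn.comp1 (Q := fun x => ∃ m, (∃ n, C n ∧ cmpn k n = m) ∧ x = nat m)
    (DA.image hM (computable_cmpn k) hC) (DfnF.proj 0)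

end

section

variable {c : Cardinal.{0}} {lt : ZFSet.{0} → ZFSet.{0} → Prop}

/-- Models of the same infinite cardinality are isomorphic. -/
theorem same_card' {T T' : Set (SOF ar)} (hc : CompleteT T) (hT' : IsTheory T')
    (hTT : ∀ A : Struc ar, ModelsT A T ↔ ModelsT A T')
    (hrec : DA (HH c) fun n => ∃ φ ∈ T', φ.code = n) (hω : ℵ₀ ≤ c)
    (hS : Setg c (HH c) lt) {A B : Struc ar} (hA : ModelsT A T) (hB : ModelsT B T)
    (hAc : #A.Dom = c) (hBc : #B.Dom = c) : Isom A B := by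
  have hM := full_HH hω
  obtain ⟨a, haM, haA, ha⟩ := exists_chi hω hS.wo hAc
  obtain ⟨b, hbM, hbB, hb⟩ := exists_chi hω hS.wo hBc
  let C : ℕ → Prop := fun n => ∃ φ ∈ T', φ.code = n
  have hCT : ∀ {A : Struc ar} {a : ZFSet.{0}}, a ∈ HH c → IsCode A a →
      ((∀ n, C n → GS (HH c) n (asd (fs a) (sn a))) ↔ ModelsT A T) := by
    intro A a haM ha
    rw [hTT]
    constructor
    · intro h φ hφ
      exact (gs_code hM ha haM (hT' φ hφ)).1 (h _ ⟨φ, hφ, rfl⟩)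
    · rintro h n ⟨φ, hφ, rfl⟩
      exact (gs_code hM ha haM (hT' φ hφ)).2 (h φ hφ)
  have key : ∀ a ∈ HH c, ∀ b ∈ HH c, Chi ar (HH c) lt a →
      (∀ n, C n → GS (HH c) n (asd (fs a) (sn a))) → Chi ar (HH c) lt b →
      (∀ n, C n → GS (HH c) n (asd (fs b) (sn b))) → ∀ R : ZFSet.{0} → Prop,
      (Dfn ∅ (HH c) fun v : Fin 1 → ZFSet.{0} => R (v 0)) → R a → R b := by
    intro a haM b hbM ha ha' hb hb' R hR hRa
    have hcA := ha.1.isCode
    have hcB := hb.1.isCode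
    have hA : ModelsT _ T := (hCT haM hcA).1 ha'
    have hB : ModelsT _ T := (hCT hbM hcB).1 hb'
    have hAc := hcA.card.symm.trans (card_of_chi hω haM ha)
    have hBc := hcB.card.symm.trans (card_of_chi hω hbM hb)
    obtain ⟨φ, hφ⟩ := dfn_iff.1 (hR.and (chi' (ar := ar) hM hS.wo (DfnF.proj 0)))
    obtain ⟨θ, hθ, hθ'⟩ := translation ar φ
    have h1 : Models (dst ar a ha.1.2.2.1) θ := by
      rw [hθ' _ (Cardinal.infinite_iff.2 (hω.trans hAc.ge)), hAc]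
      refine ⟨a, haM, hcA, (hφ ![a] fun i => ?_).2 ⟨hRa, ha⟩⟩
      fin_cases i
      exact haM
    have h2 := (hc.iff hθ hA hB).1 h1
    rw [hθ' _ (Cardinal.infinite_iff.2 (hω.trans hBc.ge)), hBc] at h2
    obtain ⟨b', hb'M, h3, h4⟩ := h2
    obtain ⟨h5, h6⟩ := (hφ ![b'] fun i => by
      fin_cases i
      exact hb'M).1 h4
    have h7 : b' = b := isCode_iff_of_chi hM hS.wo hb'M hbM h6 hb h3 hcB
    rw [← h7]
    exact h5
  have hab : a = b := by
    refine hS.unique gs_fml (χ := Chi ar (HH c) lt) (chi' hM hS.wo (DfnF.proj 0))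
      (C := C) (fun k => dfn_CC' hM hrec k) ?_ (fun x _ hx => hx.1.1) ?_
      haM ha ((hCT haM haA).2 hA) hbM hb ((hCT hbM hbB).2 hB)
    · rintro n ⟨φ, hφ, rfl⟩ f g h0 h1
      exact GS_sentence (hT' φ hφ) h0 h1
    · intro a haM b hbM ha ha' hb hb' R hR
      exact ⟨key a haM b hbM ha ha' hb hb' R hR, key b hbM a haM hb hb' ha ha' R hR⟩
  subst hab
  exact haA.isom hbB

end

/-- Definable axiomatizations give models of one cardinality. -/
theorem card_eq' {T T' : Set (SOF ar)} (hc : CompleteT T) (hT' : IsTheory T')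
    (hTT : ∀ A : Struc ar, ModelsT A T ↔ ModelsT A T') {A B : Struc ar}
    (hrec : DA (HH #B.Dom) fun n => ∃ φ ∈ T', φ.code = n)
    (hA : ModelsT A T) (hB : ModelsT B T) (hAi : ℵ₀ ≤ #A.Dom) (hBi : ℵ₀ ≤ #B.Dom)
    (hmin : ∀ A' : Struc ar, ModelsT A' T → ℵ₀ ≤ #A'.Dom → #A.Dom ≤ #A'.Dom)
    (hN : ∃ N0 : ZFSet.{0}, (∀ x, x ∈ N0 ↔ x ∈ HH #A.Dom) ∧ N0.card ≤ Order.succ #A.Dom) :
    #B.Dom = #A.Dom := by
  by_contra hne
  have hlt : #A.Dom < #B.Dom := lt_of_le_of_ne (hmin B hB hBi) (Ne.symm hne)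
  obtain ⟨N0, hN0, hN0c⟩ := hN
  have hM1 := full_HH hAi
  have hM2 := full_HH hBi
  have hN0M : N0 ∈ HH #B.Dom := hh_of_trans hM2
    (fun y hy z hz => (hN0 z).2 (hM1.trans ((hN0 y).1 hy) hz)) (hN0c.trans (Order.succ_le_of_lt hlt))
  let C : ℕ → Prop := fun n => ∃ φ ∈ T', φ.code = n
  obtain ⟨k0, hk0⟩ := exists_k0
  -- the truth of the numbers in the classes of sets
  have hcmp : ∀ {κ : Cardinal.{0}} {N : Set ZFSet.{0}}, Full κ N → ∀ {a : ZFSet.{0}}, a ∈ N →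
      ∀ {A : Struc ar}, IsCode A a →
      ((∀ n, C n → GS N (cmpn k0 n) (asg a)) ↔ ModelsT A T) := by
    intro κ N hN a haN A ha
    rw [hTT]
    have hp := (isCode_iff.1 ha).1
    obtain ⟨hf, hs⟩ := hN.of_pair_mem (hp ▸ haN)
    have h1 : ∀ φ ∈ T', (GS N (cmpn k0 φ.code) (asg a) ↔ Models A φ) := by
      intro φ hφ
      rw [GS_cmpn, ← gs_code hN ha haN (hT' φ hφ)]
      constructor
      · rintro ⟨D, hD, d, hd, h2, h3⟩
        rw [hk0 N hN.base.trans _ (by simpa using hD) (by simpa using hd)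
          (by simpa [asg] using haN)] at h2
        have h4 : a = pair D d := by simpa [asg] using h2
        rw [h4, fs_pair, sn_pair]
        exact (GS_sentence (hT' φ hφ) (by simp [asd]) (by simp [asd])).1 h3
      · intro h3
        refine ⟨fs a, hf, sn a, hs, ?_, ?_⟩
        · rw [hk0 N hN.base.trans _ (by simpa using hf) (by simpa using hs)
            (by simpa [asg] using haN)]
          simpa [asg] using hp
        · exact (GS_sentence (hT' φ hφ) (by simp [asd]) (by simp [asd])).1 h3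
    constructor
    · intro h φ hφ
      exact (h1 φ hφ).1 (h _ ⟨φ, hφ, rfl⟩)
    · rintro h n ⟨φ, hφ, rfl⟩
      exact (h1 φ hφ).2 (h φ hφ)
  -- the formulas
  have hJ : Dfn ∅ (HH #B.Dom) fun v : Fin 3 → ZFSet.{0} => v 0 ∈ JJ (v 1) (v 2) :=
    Dfn.mem (DfnF.proj 0) (DfnF.comp2 (f := JJ) hM2.jj (DfnF.proj 1) (DfnF.proj 2))
  obtain ⟨ψ, hψ⟩ := dfn_iff.1 hJ
  have hCC : Dfn ∅ (HH #B.Dom) fun v : Fin 1 → ZFSet.{0} => v 0 ∈ CC C k0 :=
    Dfn.mem (DfnF.proj 0) (dfnF_of_const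
      (hM2.sub hM2.omega_mem fun x hx => (ZFSet.mem_sep.1 hx).1) (dfn_CC' hM2 hrec k0))
  obtain ⟨χ, hχ⟩ := dfn_iff.1 hCC
  have hψ2 : ∀ x ∈ HH #B.Dom, ∀ N ∈ HH #B.Dom, ∀ a ∈ HH #B.Dom,
      (Sat (HH #B.Dom) Empty.elim ψ ![x, N, a] ↔ x ∈ JJ N a) := by
    intro x hx N hN a ha
    rw [hψ]
    · rfl
    · intro i
      fin_cases i
      exacts [hx, hN, ha]
  have hχ2 : ∀ x ∈ HH #B.Dom, (Sat (HH #B.Dom) Empty.elim χ ![x] ↔ x ∈ CC C k0) := by
    intro x hx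
    rw [hχ]
    · rfl
    · intro i
      fin_cases i
      exact hx
  -- the formulas are correct in the smaller class
  have hχ1 : ∀ n, C n → Sat (HH #A.Dom) Empty.elim χ ![nat (cmpn k0 n)] := by
    intro n hn
    have h1 := elem_equiv hc hA hB hAi hBi
      (R := fun M => ∀ x ∈ M, x = nat (cmpn k0 n) → Sat M Empty.elim χ ![x]) (by
        apply UD.all (Q := fun M x _ => x = nat (cmpn k0 n) → Sat M Empty.elim χ ![x])
        apply UD.imp
        · exact UD.of_D0 (D0.isNat (D0v.proj 0) _)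
        · refine ((UD.sat χ).comp ![0]).congr fun M _ _ v _ => ?_
          have h2 : (fun i => v ((![0] : Fin 1 → Fin 2) i)) = ![v 0] := by
            funext i
            fin_cases i
            rfl
          rw [h2])
    refine h1.2 (fun x hx h2 => ?_) _ (hM1.nat_mem _) rfl
    rw [hχ2 x hx, h2]
    exact mem_CC.2 ⟨n, hn, rfl⟩
  have hψ1 : ∀ n : ℕ, ∀ N ∈ HH #A.Dom, ∀ a ∈ HH #A.Dom, (∀ x ∈ N, ∀ y ∈ x, y ∈ N) → ∅ ∈ N →
      a ∈ N → Sat (HH #A.Dom) Empty.elim ψ ![nat n, N, a] → GS {x | x ∈ N} n (asg a) := by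
    intro n
    obtain ⟨φ, hφ⟩ := gs_fml n
    have h1 := elem_equiv hc hA hB hAi hBi
      (R := fun M => ∀ x ∈ M, ∀ N ∈ M, ∀ a ∈ M, (x = nat n ∧ (∀ x ∈ N, ∀ y ∈ x, y ∈ N) ∧
        (∃ e ∈ N, e = nat 0) ∧ a ∈ N) →
        Sat M Empty.elim ψ ![x, N, a] → Sat {x | x ∈ N} Empty.elim φ ![a]) (by
        apply UD.all (Q := fun M x _ => ∀ N ∈ M, ∀ a ∈ M, (x = nat n ∧
          (∀ x ∈ N, ∀ y ∈ x, y ∈ N) ∧ (∃ e ∈ N, e = nat 0) ∧ a ∈ N) →
          Sat M Empty.elim ψ ![x, N, a] → Sat {x | x ∈ N} Empty.elim φ ![a])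
        apply UD.all (Q := fun M N (w : Fin 2 → ZFSet.{0}) => ∀ a ∈ M, (w 0 = nat n ∧
          (∀ x ∈ N, ∀ y ∈ x, y ∈ N) ∧ (∃ e ∈ N, e = nat 0) ∧ a ∈ N) →
          Sat M Empty.elim ψ ![w 0, N, a] → Sat {x | x ∈ N} Empty.elim φ ![a])
        apply UD.all (Q := fun M a (w : Fin 3 → ZFSet.{0}) => (w 1 = nat n ∧
          (∀ x ∈ w 0, ∀ y ∈ x, y ∈ w 0) ∧ (∃ e ∈ w 0, e = nat 0) ∧ a ∈ w 0) →
          Sat M Empty.elim ψ ![w 1, w 0, a] → Sat {x | x ∈ w 0} Empty.elim φ ![a])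
        apply UD.imp
        · apply UD.of_D0
          apply D0.and (D0.isNat (D0v.proj 2) n)
          apply D0.and
          · apply D0.ball (D0v.proj 1)
            apply D0.ball (D0v.proj 0)
            exact D0.mem (D0v.proj 0) (D0v.proj 3)
          apply D0.and
          · apply D0.bex (D0v.proj 1)
            exact D0.isNat (D0v.proj 0) 0
          · exact D0.mem (D0v.proj 0) (D0v.proj 1)
        · apply UD.imp
          · refine ((UD.sat ψ).comp ![2, 1, 0]).congr fun M _ _ v _ => ?_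
            have h2 : (fun i => v ((![2, 1, 0] : Fin 3 → Fin 4) i)) = ![v 2, v 1, v 0] := by
              funext i
              fin_cases i <;> rfl
            rw [h2]
            rfl
          · refine ((UD.of_D0 (D0.relSat φ)).comp ![1, 0]).congr fun M _ _ v _ => ?_
            have h2 : (Fin.tail fun i => v ((![1, 0] : Fin 2 → Fin 4) i)) = ![v 0] := by
              funext i
              fin_cases i
              rfl
            rw [h2]
            rfl)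
    intro N hN a ha h2 h3 h4 h5
    rw [← hφ {x | x ∈ N} h2 h3 a h4]
    refine h1.2 (fun x hx N hN a ha h6 h7 => ?_) _ (hM1.nat_mem n) N hN a ha
      ⟨rfl, h2, ⟨_, h3, rfl⟩, h4⟩ h5
    obtain ⟨rfl, h8, ⟨e, h9, rfl⟩, h10⟩ := h6
    rw [hψ2 _ hx N hN a ha] at h7
    rw [hφ {x | x ∈ N} h8 h9 a h10]
    exact nat_mem_JS.1 h7
  -- the description of the models in the small classes
  have hσ := elem_equiv hc hA hB hAi hBi
    (R := fun M => ∃ N ∈ M, ∃ D ∈ M, ∃ d ∈ M, ∃ a ∈ M, (P0 ar a d D N ∧ Q0 M D N) ∧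
      ∀ x ∈ M, Sat M Empty.elim χ ![x] → Sat M Empty.elim ψ ![x, N, a]) (by
      apply UD.ex (Q := fun M N _ => ∃ D ∈ M, ∃ d ∈ M, ∃ a ∈ M, (P0 ar a d D N ∧ Q0 M D N) ∧
        ∀ x ∈ M, Sat M Empty.elim χ ![x] → Sat M Empty.elim ψ ![x, N, a])
      apply UD.ex (Q := fun M D (w : Fin 2 → ZFSet.{0}) => ∃ d ∈ M, ∃ a ∈ M,
        (P0 ar a d D (w 0) ∧ Q0 M D (w 0)) ∧
        ∀ x ∈ M, Sat M Empty.elim χ ![x] → Sat M Empty.elim ψ ![x, w 0, a])
      apply UD.ex (Q := fun M d (w : Fin 3 → ZFSet.{0}) => ∃ a ∈ M,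
        (P0 ar a d (w 0) (w 1) ∧ Q0 M (w 0) (w 1)) ∧
        ∀ x ∈ M, Sat M Empty.elim χ ![x] → Sat M Empty.elim ψ ![x, w 1, a])
      apply UD.ex (Q := fun M a (w : Fin 4 → ZFSet.{0}) =>
        (P0 ar a (w 0) (w 1) (w 2) ∧ Q0 M (w 1) (w 2)) ∧
        ∀ x ∈ M, Sat M Empty.elim χ ![x] → Sat M Empty.elim ψ ![x, w 2, a])
      apply UD.and
      · apply UD.and
        · exact (UD.of_D0 d0_P0).comp ![0, 1, 2, 3]
        · exact ud_Q0.comp ![2, 3]
      · apply UD.all (Q := fun M x (w : Fin 5 → ZFSet.{0}) =>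
          Sat M Empty.elim χ ![x] → Sat M Empty.elim ψ ![x, w 3, w 0])
        apply UD.imp
        · refine ((UD.sat χ).comp ![0]).congr fun M _ _ v _ => ?_
          have h2 : (fun i => v ((![0] : Fin 1 → Fin 6) i)) = ![v 0] := by
            funext i
            fin_cases i
            rfl
          rw [h2]
        · refine ((UD.sat ψ).comp ![0, 4, 1]).congr fun M _ _ v _ => ?_
          have h2 : (fun i => v ((![0, 4, 1] : Fin 3 → Fin 6) i)) = ![v 0, v 4, v 1] := by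
            funext i
            fin_cases i <;> rfl
          rw [h2]
          rfl)
  -- it holds in the larger class
  obtain ⟨a0, ha0, hca0⟩ := exists_code_hh A hAi
  have hw0 := hca0.wfc
  have hf0 : fs a0 ∈ HH #A.Dom := fs_mem hM1 ha0 hw0
  have hs0 : sn a0 ∈ HH #A.Dom := (hM1.of_pair_mem (hw0.1 ▸ ha0)).2
  have hup : ∀ {x}, x ∈ HH #A.Dom → x ∈ HH #B.Dom := fun hx => hM2.trans hN0M ((hN0 _).2 hx)
  have hset : {x | x ∈ N0} = HH #A.Dom := Set.ext fun x => hN0 x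
  have h2 : ∃ N ∈ HH #A.Dom, ∃ D ∈ HH #A.Dom, ∃ d ∈ HH #A.Dom, ∃ a ∈ HH #A.Dom,
      (P0 ar a d D N ∧ Q0 (HH #A.Dom) D N) ∧ ∀ x ∈ HH #A.Dom,
      Sat (HH #A.Dom) Empty.elim χ ![x] → Sat (HH #A.Dom) Empty.elim ψ ![x, N, a] := by
    refine hσ.2 ⟨N0, hN0M, fs a0, hup hf0, sn a0, hup hs0, a0, hup ha0, ⟨⟨hw0.1, (hN0 _).2 ha0,
      ⟨ZFSet.omega, (hN0 _).2 hM1.omega_mem, ⟨_, ZFSet.omega_zero, rfl⟩, fun z hz => ?_⟩,
      hw0.2.1, ?_, fun p hp => ?_⟩, fun x hx => ⟨fun hx' => ?_, fun h3 h4 => ?_⟩⟩,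
      fun x hx hx' => ?_⟩
    · exact ⟨_, ZFSet.omega_succ hz, ZFSet.mem_insert _ _⟩
    · obtain ⟨x, hx⟩ := hw0.2.2.1
      exact ⟨x, hx, rfl⟩
    · obtain ⟨r, h3, h4⟩ := hw0.2.2.2 p hp
      exact ⟨_, _, h3, r, rfl, h4⟩
    · refine ⟨fun y hy => (hN0 y).2 (hM1.trans ((hN0 x).1 hx') hy), ?_⟩
      obtain ⟨f, hf, hf'⟩ := exists_ij (x := x) (D := fs a0) (by
        rw [hca0.card]
        exact hM1.card ((hN0 x).1 hx'))
      exact ⟨f, hM2.sub (hM2.prod_mem hx (hup hf0)) hf', hf⟩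
    · obtain ⟨f, -, hf⟩ := h4
      refine (hN0 x).2 ((hM1.iff x).2 ⟨fun y hy => (hN0 y).1 (h3 y hy), ?_⟩)
      rw [← hca0.card]
      exact card_le_of_ij hf
    · rw [hχ2 x hx] at hx'
      rw [hψ2 x hx N0 hN0M a0 (hup ha0)]
      obtain ⟨n, hn, rfl⟩ := mem_CC.1 hx'
      refine nat_mem_JS.2 ?_
      rw [hset]
      exact (hcmp hM1 ha0 hca0).2 hA n hn
  -- it fails in the smaller class
  obtain ⟨N, hN, D, hD, d, hd, a, ha, ⟨hP, hQ⟩, hS⟩ := h2
  have hfull : Full D.card {x | x ∈ N} := by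
    refine hQ.full hM1 hD hN ?_
    obtain ⟨-, -, ⟨w, hw, ⟨z, hz, -⟩, h3⟩, -⟩ := hP
    exact ⟨w, hw, infinite_of_no_max ⟨z, hz⟩ h3⟩
  have haN : a ∈ N := hP.2.1
  have hDN : D ∈ N := (hfull.of_pair_mem (M := {x | x ∈ N}) (x := D) (y := d)
    (by rw [← hP.1]; exact haN)).1
  have hcode := hP.wfc.isCode
  have hmod : ModelsT (dst ar a hP.wfc.2.2.1) T := by
    refine (hcmp hfull haN hcode).1 fun n hn => ?_
    exact hψ1 _ N hN a ha hfull.base.trans hfull.empty_mem haN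
      (hS _ (hM1.nat_mem _) (hχ1 n hn))
  have hDc : D.card = #(dst ar a hP.wfc.2.2.1).Dom := by
    rw [← hcode.card, hP.1, fs_pair]
  have h3 := hmin _ hmod (hDc ▸ hfull.inf)
  rw [← hDc] at h3
  have h4 : ZFSet.powerset D ⊆ N := fun y hy => hfull.sub hDN (ZFSet.mem_powerset.1 hy)
  have h5 := (ZFSet.card_mono h4).trans (hM1.card hN)
  rw [ZFSet.card_powerset] at h5
  exact absurd (h5.trans h3) (not_le.2 (Cardinal.cantor _))

/-- Categoricity from the fine structure of the small classes. -/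
theorem categorical_of_def {T T' : Set (SOF ar)} (hc : CompleteT T) (hT' : IsTheory T')
    (hTT : ∀ A : Struc ar, ModelsT A T ↔ ModelsT A T')
    (hD : ∀ A : Struc ar, ModelsT A T → ℵ₀ ≤ #A.Dom →
      DA (HH #A.Dom) fun n => ∃ φ ∈ T', φ.code = n)
    (h : ∀ c : Cardinal.{0}, ℵ₀ ≤ c → (∀ A : Struc ar, ModelsT A T → ℵ₀ ≤ #A.Dom → c ≤ #A.Dom) →
      (∃ lt, Setg c (HH c) lt) ∧
      ∃ N0 : ZFSet.{0}, (∀ x, x ∈ N0 ↔ x ∈ HH c) ∧ N0.card ≤ Order.succ c) :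
    CategoricalT T := by
  intro A B hA hB
  by_cases hAf : Finite A.Dom
  · exact isom_of_finite hc hA hB hAf
  by_cases hBf : Finite B.Dom
  · exact (isom_of_finite hc hB hA hBf).symm
  have hinf : ∀ {A : Struc ar}, ¬ Finite A.Dom → ℵ₀ ≤ #A.Dom := fun h =>
    Cardinal.infinite_iff.1 (not_finite_iff_infinite.1 h)
  obtain ⟨c0, ⟨A0, hA0, hA0i, rfl⟩, hmin⟩ := WellFounded.has_min
    (wellFounded_lt (α := Cardinal.{0}))
    {c | ∃ A : Struc ar, ModelsT A T ∧ ℵ₀ ≤ #A.Dom ∧ #A.Dom = c} ⟨_, A, hA, hinf hAf, rfl⟩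
  have hmin' : ∀ A' : Struc ar, ModelsT A' T → ℵ₀ ≤ #A'.Dom → #A0.Dom ≤ #A'.Dom :=
    fun A' h1 h2 => not_lt.1 (hmin _ ⟨A', h1, h2, rfl⟩)
  obtain ⟨⟨lt, hS⟩, hN⟩ := h _ hA0i hmin'
  have h1 := card_eq' hc hT' hTT (hD A hA (hinf hAf)) hA0 hA hA0i (hinf hAf) hmin' hN
  have h2 := card_eq' hc hT' hTT (hD B hB (hinf hBf)) hA0 hB hA0i (hinf hBf) hmin' hN
  exact same_card' hc hT' hTT (hD A0 hA0 hA0i) hA0i hS hA hB h1 h2

/-- Categoricity, if every set is constructible. -/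
theorem categorical_of_VL {T T' : Set (SOF ar)} (hV : VL) (hc : CompleteT T) (hT' : IsTheory T')
    (hTT : ∀ A : Struc ar, ModelsT A T ↔ ModelsT A T')
    (hD : ∀ A : Struc ar, ModelsT A T → ℵ₀ ≤ #A.Dom →
      DA (HH #A.Dom) fun n => ∃ φ ∈ T', φ.code = n) :
    CategoricalT T := by
  refine categorical_of_def hc hT' hTT hD fun c hω _ => ?_
  have hL := (VL.vlv hV).lcls hω (full_HH hω).jj
  exact ⟨⟨_, hL.setg⟩, exists_N0 hω (D := Cd) (fun _ _ _ _ h h' => h.uniq h')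
    fun x hx => hL.exists_Cd hx⟩

end Pool.Agent.N223.Cat
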