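import Pool.Agent.N223.Cat.Ana
import Pool.Agent.R587.VocRed

/-!
# Complete second-order theories with definable axiom systems in finite vocabularies
-/

set_option autoImplicit false

namespace Pool.Agent.N223.Cat

open Pool.Agent.R587 Pool.Agent.R587.Voc
open Pool.Agent.W868 hiding Models
open ZFSet (pair)
open Cardinal

section

variable {m l : ℕ} {ar : Fin m → ℕ} {af : Fin l → ℕ} {c : Cardinal.{0}} {M : Set ZFSet.{0}}

/-- The translated theory has a definable set of codes. -/
theorem da_thy {T : Set (Fo ar af)} (hM : Full c M) (h : DA M fun n => ∃ φ ∈ T, φ.code = n) :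
    DA M fun n => ∃ χ ∈ thy T, χ.code = n := by
  have h1 := DA.image hM (primrec_thc m).to_comp h
  have h2 : ComputablePred fun n => n ∈ List.ofFn fun j => (fj ar af j).code := by
    refine ComputablePred.computable_iff.2 ⟨fun n => decide (n ∈ List.ofFn fun j =>
      (fj ar af j).code), (primrecPred_mem _).decide.to_comp, ?_⟩
    funext n
    simp
  refine (h1.or (DA.of_computable hM h2)).congr fun n => ?_
  rw [List.mem_ofFn]
  constructor
  · rintro (⟨k, ⟨φ, hφ, rfl⟩, h3⟩ | ⟨j, hj⟩)
    · exact ⟨th φ, Or.inr ⟨φ, hφ, rfl⟩, by rw [← thc_code, h3]⟩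
    · exact ⟨fj ar af j, Or.inl ⟨j, rfl⟩, hj⟩
  · rintro ⟨χ, ⟨j, rfl⟩ | ⟨φ, hφ, rfl⟩, rfl⟩
    · exact Or.inr ⟨j, rfl⟩
    · exact Or.inl ⟨φ.code, ⟨φ, hφ, rfl⟩, thc_code φ⟩

/-- **Categoricity.** If every set is constructible, then a complete second-order theory in a finite
vocabulary is categorical if the numbers of the axioms are definable without parameters over the
sets of hereditary size at most the size of the models, for all infinite models. -/
theorem categorical {T T1 : Set (Fo ar af)} (hV : VL) (hc : CompleteT T) (hT1 : IsTheory T1)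
    (hm : ∀ A : St ar af, ModelsT A T ↔ ModelsT A T1)
    (hD : ∀ A : St ar af, ModelsT A T → ℵ₀ ≤ #A.Dom →
      DA (HH #A.Dom) fun n => ∃ φ ∈ T1, φ.code = n) : CategoricalT T := by
  have h1 : ∀ A : St ar af, R587.ModelsT (toRel A) (thy T1) ↔ ModelsT A T := fun A => by
    rw [modelsT_thy, hm]
  have h2 : ∀ B : Struc (arr ar af), R587.ModelsT B (thy T1) →
      ∃ A : St ar af, ModelsT A T ∧ toRel A = B := fun B hB => by
    obtain ⟨A, hA, e⟩ := exists_of_modelsT_thy hB
    exact ⟨A, (hm A).2 hA, e⟩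
  have hcomp : R587.CompleteT (thy T1) := by
    refine ⟨?_, fun ψ hψ => ?_⟩
    · obtain ⟨A, hA⟩ := hc.1
      exact ⟨toRel A, (h1 A).2 hA⟩
    · rcases hc.2 (bt ψ) (sentence_bt hψ) with h | h
      · left
        intro B hB
        obtain ⟨A, hA, rfl⟩ := h2 B hB
        exact models_bt.1 (h A hA)
      · right
        intro B hB
        obtain ⟨A, hA, rfl⟩ := h2 B hB
        exact models_bt.1 (h A hA)
  have hcat : R587.CategoricalT (thy T1) := by
    refine categorical_of_VL hV hcomp (isTheory_thy hT1) (fun _ => Iff.rfl) fun B hB hBi => ?_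
    obtain ⟨A, hA, rfl⟩ := h2 B hB
    exact da_thy (full_HH hBi) (hD A hA hBi)
  intro A A' hA hA'
  obtain ⟨e, he⟩ := hcat (toRel A) (toRel A') ((h1 A).2 hA) ((h1 A').2 hA')
  refine ⟨e, fun r x => ?_, fun j x => ?_⟩
  · have h := he (Fin.castAdd l r) fun i => x (Fin.cast (arr_left r) i)
    rw [toRel_left, toRel_left] at h
    exact h
  · have h := he (Fin.natAdd m j) fun i => Fin.snoc (α := fun _ => A.Dom) x (A.F j x)
      (Fin.cast (arr_right j) i)
    have h3 : Gr (toRel A) j x (A.F j x) := Gr_toRel.2 rfl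
    have h4 := h.1 h3
    have h5 : (fun i => e (Fin.snoc (α := fun _ => A.Dom) x (A.F j x)
        (Fin.cast (arr_right (ar := ar) j) i))) = fun i =>
        Fin.snoc (α := fun _ => A'.Dom) (fun i => e (x i)) (e (A.F j x))
          (Fin.cast (arr_right (ar := ar) j) i) := by
      funext i
      refine Fin.lastCases ?_ (fun i => ?_) (Fin.cast (arr_right (ar := ar) j) i)
      · rw [Fin.snoc_last, Fin.snoc_last]
      · rw [Fin.snoc_castSucc, Fin.snoc_castSucc]
    rw [h5] at h4
    exact (Gr_toRel.1 h4).symm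

theorem models_neg' {A : St ar af} {φ : Fo ar af} (hφ : φ.Sentence) :
    Models A φ.neg ↔ ¬ Models A φ := by
  rw [← models_tr, ← models_tr (φ := φ)]
  exact models_neg (sentence_tr hφ)

end

/-- The empty list of arities. -/
def ar0 : Fin 0 → ℕ := fun i => i.elim0

/-- The set `D` without relations and functions. -/
def pureSt (D : Type) (h : Nonempty D) : St ar0 ar0 where
  Dom := D
  ne := h
  R := fun r => r.elim0
  F := fun j => j.elim0

/-- **Complete theories need not be categorical.** There is a complete second-order theory in the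
empty vocabulary with two infinite models of different cardinalities. -/
theorem exists_not_categorical : ∃ T : Set (Fo ar0 ar0), IsTheory T ∧ CompleteT T ∧
    ∃ A B : St ar0 ar0, ModelsT A T ∧ ModelsT B T ∧ ℵ₀ ≤ #A.Dom ∧ #A.Dom < #B.Dom := by
  let A : Ordinal.{0} → St ar0 ar0 := fun α => pureSt (ℵ_ α).out
    (Cardinal.mk_ne_zero_iff.1 (by rw [Cardinal.mk_out]; exact (Cardinal.aleph_pos α).ne'))
  have hA : ∀ α, #(A α).Dom = ℵ_ α := fun α => Cardinal.mk_out _
  let Th : Ordinal.{0} → Set (Fo ar0 ar0) := fun α => {φ | φ.Sentence ∧ Models (A α) φ}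
  have hinj : ¬ Function.Injective Th := not_injective_of_ordinal Th
  have hmod : ∀ γ, ModelsT (A γ) (Th γ) := fun γ φ hφ => hφ.2
  have hlt : ∃ α β, Th α = Th β ∧ α < β := by
    rw [Function.Injective] at hinj
    push Not at hinj
    obtain ⟨α, β, hαβ, hne⟩ := hinj
    rcases lt_or_gt_of_ne hne with h | h
    · exact ⟨α, β, hαβ, h⟩
    · exact ⟨β, α, hαβ.symm, h⟩
  obtain ⟨α, β, hαβ, hlt⟩ := hlt
  refine ⟨Th α, fun φ hφ => hφ.1, ⟨⟨A α, hmod α⟩, fun φ hφ => ?_⟩, A α, A β, hmod α,
    by rw [hαβ]; exact hmod β, ?_, ?_⟩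
  · by_cases h : Models (A α) φ
    · exact Or.inl fun B hB => hB φ ⟨hφ, h⟩
    · refine Or.inr fun B hB => hB φ.neg ⟨hφ, (models_neg' hφ).2 h⟩
  · rw [hA]
    exact Cardinal.aleph0_le_aleph α
  · rw [hA, hA]
    exact Cardinal.aleph_lt_aleph.2 hlt

end Pool.Agent.N223.Cat
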